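import Pool.Agent.R345.CT3

set_option autoImplicit false

/-!
# Torsion in the class groups of the quadratic fields given by the elements of an ARBITRARY sumset

Let `A`, `B` be arbitrary sets of integers in `[-N, N]`, without any condition on their structure.

(1) Let `1 ≤ Y` with `Y ^ (2 k) ≤ |A|, |B|`, and let `D ≠ 0`, `|D| ≤ N`. For all but a proportion `(C (log N) ^ 2 / L) ^ k`
of the pairs `(a, b)` the following holds for ALL `ℓ` and the quadratic field `K = ℚ(√(D (a + b)))` of discriminant `d`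
(real or imaginary): `|Cl_K[ℓ]| ≤ C ℓ ^ 2 (L + (log N) ^ 3) |d| ^ (1 / 2) max (|d| ^ (- 1 / (2 ℓ)), 1 / Y)`.

(2) If `|A|, |B| ≥ N ^ (1 / ℓ₀ + ε)`, then for all but a proportion `N ^ (- ε / 4)` of the pairs `(a, b)` and ALL `ℓ ≥ ℓ₀`
the class group of `K = ℚ(√(a + b))` satisfies `|Cl_K[ℓ]| ≤ ℓ ^ 2 N ^ ε |d| ^ (1 / 2 - 1 / (2 ℓ))`.
-/

namespace Pool.Agent.Results.MP_695920_nt.Sumsets

open NumberField

/-- The bound `|Cl_K[ℓ]| ≤ C ℓ ^ 2 M √|d_K| max (|d_K| ^ (- 1 / (2 ℓ)), 1 / Y)` for all `ℓ ≥ 1` and all quadratic fields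
`K = ℚ(√n)` (there are none if `n` is a square). -/
def Bound (C M Y : ℝ) (n : ℤ) : Prop :=
  ∀ ℓ : ℕ, 1 ≤ ℓ → ∀ (K : Type) [Field K] [NumberField K] (α : K), Module.finrank ℚ K = 2 →
    IntermediateField.adjoin ℚ {α} = ⊤ → α ^ 2 = (n : K) →
    (Nat.card {x : ClassGroup (𝓞 K) // x ^ ℓ = 1} : ℝ) ≤
      C * ℓ ^ 2 * M * √|(discr K : ℝ)| * max (|(discr K : ℝ)| ^ (-(1 / (2 * (ℓ : ℝ))))) (1 / Y)

lemma sub_Icc {A : Finset ℤ} {M : ℤ} (h : ∀ a ∈ A, |a| ≤ M) : A ⊆ Finset.Icc (-M) M := by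
  intro a ha
  rw [Finset.mem_Icc]
  exact abs_le.1 (h a ha)

lemma disc_gt (K : Type) [Field K] [NumberField K] (h : Module.finrank ℚ K = 2) : (2 : ℝ) < |(discr K : ℝ)| := by
  have h1 : (2 : ℤ) < |discr K| := abs_discr_gt_two (by omega)
  exact_mod_cast h1

/-- powers of the logarithm -/
lemma log_small (M : ℕ) (c δ : ℝ) (hδ : 0 < δ) : ∃ N₀ : ℕ, ∀ N : ℕ, N₀ ≤ N → c * Real.log N ^ M ≤ (N : ℝ) ^ δ := by
  have h1 := (isLittleO_log_rpow_rpow_atTop (M : ℝ) hδ).def (show (0 : ℝ) < 1 / (|c| + 1) by positivity)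
  obtain ⟨x0, hx0⟩ := Filter.eventually_atTop.1 (h1.and (Filter.eventually_ge_atTop (1 : ℝ)))
  refine ⟨⌈x0⌉₊, fun N hN => ?_⟩
  obtain ⟨h2, h3⟩ := hx0 N ((Nat.le_ceil x0).trans (by exact_mod_cast hN))
  have hl := Real.log_nonneg h3
  rw [Real.norm_of_nonneg (by positivity), Real.norm_of_nonneg (by positivity), Real.rpow_natCast] at h2
  have h4 : c ≤ |c| + 1 := by linarith [le_abs_self c]
  calc c * Real.log N ^ M ≤ (|c| + 1) * Real.log N ^ M := mul_le_mul_of_nonneg_right h4 (by positivity)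
    _ ≤ (|c| + 1) * (1 / (|c| + 1) * (N : ℝ) ^ δ) := mul_le_mul_of_nonneg_left h2 (by positivity)
    _ = _ := by field_simp

open Pool.Agent.R345.SS in
theorem result :
    (∀ k : ℕ, 1 ≤ k → ∃ C : ℝ, 0 < C ∧ ∀ (N : ℕ) (D : ℤ) (A B : Finset ℤ) (L Y : ℝ), 2 ≤ N → D ≠ 0 → |D| ≤ N →
      (∀ a ∈ A, |a| ≤ (N : ℤ)) → (∀ b ∈ B, |b| ≤ (N : ℤ)) → 1 ≤ L → 1 ≤ Y →
      Y ^ (2 * k) ≤ A.card → Y ^ (2 * k) ≤ B.card →
      (Set.ncard {z : ℤ × ℤ | z.1 ∈ A ∧ z.2 ∈ B ∧ ¬ Bound C (L + Real.log N ^ 3) Y (D * (z.1 + z.2))} : ℝ) ≤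
        (C * Real.log N ^ 2 / L) ^ k * (A.card * B.card)) ∧
    (∀ (ℓ₀ : ℕ) (ε : ℝ), 1 ≤ ℓ₀ → 0 < ε → ∃ N₀ : ℕ, ∀ (N : ℕ) (A B : Finset ℤ), N₀ ≤ N →
      (∀ a ∈ A, |a| ≤ (N : ℤ)) → (∀ b ∈ B, |b| ≤ (N : ℤ)) →
      (N : ℝ) ^ (1 / (ℓ₀ : ℝ) + ε) ≤ A.card → (N : ℝ) ^ (1 / (ℓ₀ : ℝ) + ε) ≤ B.card →
      ∃ G : Finset (ℤ × ℤ), (G.card : ℝ) ≤ (N : ℝ) ^ (-(ε / 4)) * (A.card * B.card) ∧
        ∀ a ∈ A, ∀ b ∈ B, (a, b) ∉ G → ∀ ℓ : ℕ, ℓ₀ ≤ ℓ →
          ∀ (K : Type) [Field K] [NumberField K] (α : K), Module.finrank ℚ K = 2 →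
            IntermediateField.adjoin ℚ {α} = ⊤ → α ^ 2 = ((a + b : ℤ) : K) →
            (Nat.card {x : ClassGroup (𝓞 K) // x ^ ℓ = 1} : ℝ) ≤
              ℓ ^ 2 * (N : ℝ) ^ ε * |(discr K : ℝ)| ^ (1 / 2 - 1 / (2 * (ℓ : ℝ)))) := by
  classical
  refine ⟨?_, ?_⟩
  · intro k hk
    obtain ⟨C, hC, h⟩ := torsion_pairs k hk
    refine ⟨1200 * C, by positivity, ?_⟩
    intro N D A B L Y hN hD0 hDN hA hB hL hY hYA hYB
    obtain ⟨G, hGs, hGc, hG⟩ := h N D A B L Y hN hD0 hDN (sub_Icc hA) (sub_Icc hB) hL hY hYA hYB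
    have hNr : (2 : ℝ) ≤ N := by exact_mod_cast hN
    have hlN0 : 0 < Real.log N := Real.log_pos (by linarith)
    have hAB : (0 : ℝ) ≤ (A.card : ℝ) * B.card := by positivity
    have hsub : {z : ℤ × ℤ | z.1 ∈ A ∧ z.2 ∈ B ∧ ¬ Bound (1200 * C) (L + Real.log N ^ 3) Y (D * (z.1 + z.2))} ⊆ G := by
      rintro z ⟨hz1, hz2, hz⟩
      rw [Finset.mem_coe]
      by_contra hzG
      apply hz
      intro ℓ hℓ K _ _ α hfin hα hsq
      obtain ⟨-, h2, h3⟩ := hG z (Finset.mem_product.2 ⟨hz1, hz2⟩) ℓ hℓ K α hfin hα hsq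
      have hΔ := disc_gt K hfin
      set Δ : ℝ := |(discr K : ℝ)| with hΔdef
      set μ : ℝ := max (Δ ^ (-(1 / (2 * (ℓ : ℝ))))) (1 / Y) with hμ
      have hΔ0 : 0 < Δ := by linarith
      have hμ0 : 0 < μ := lt_max_of_lt_left (by positivity)
      have hs0 : 0 ≤ √Δ := Real.sqrt_nonneg _
      have hL3 : 0 ≤ Real.log N ^ 3 := by positivity
      change tor K ℓ ≤ _
      rcases h3 hzG with h4 | h4
      · refine h2.trans ?_
        have h5 : 1 ≤ 1200 * L * μ := by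
          rcases min_choice (Δ ^ (1 / (2 * (ℓ : ℝ))) / 600) Y with h6 | h6
          · rw [h6] at h4
            have h7 : Δ ^ (-(1 / (2 * (ℓ : ℝ)))) ≤ μ := le_max_left _ _
            have h8 : 0 < Δ ^ (1 / (2 * (ℓ : ℝ))) := by positivity
            rw [Real.rpow_neg hΔ0.le] at h7
            calc (1 : ℝ) = Δ ^ (1 / (2 * (ℓ : ℝ))) * (Δ ^ (1 / (2 * (ℓ : ℝ))))⁻¹ := by field_simp
              _ ≤ (1200 * L) * μ := mul_le_mul (by linarith) h7 (by positivity) (by positivity)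
          · rw [h6] at h4
            have h7 : 1 / Y ≤ μ := le_max_right _ _
            have hY0 : 0 < Y := by linarith
            calc (1 : ℝ) = Y * (1 / Y) := by field_simp
              _ ≤ (1200 * L) * μ := mul_le_mul (by linarith) h7 (by positivity) (by positivity)
        calc C * (ℓ : ℝ) ^ 2 * √Δ ≤ C * (ℓ : ℝ) ^ 2 * √Δ * (1200 * L * μ) :=
              le_mul_of_one_le_right (by positivity) h5
          _ = 1200 * C * (ℓ : ℝ) ^ 2 * L * √Δ * μ := by ring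
          _ ≤ 1200 * C * (ℓ : ℝ) ^ 2 * (L + Real.log N ^ 3) * √Δ * μ := by
              gcongr
              linarith
      · refine h4.trans ?_
        have h5 : C ≤ 1200 * C := by linarith
        have h6 : Real.log N ^ 3 ≤ L + Real.log N ^ 3 := by linarith
        gcongr
    have h1 := Set.ncard_le_ncard hsub (Finset.finite_toSet G)
    rw [Set.ncard_coe_finset] at h1
    have h2 : (Set.ncard {z : ℤ × ℤ | z.1 ∈ A ∧ z.2 ∈ B ∧ ¬ Bound (1200 * C) (L + Real.log N ^ 3) Y (D * (z.1 + z.2))} : ℝ) ≤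
        G.card := by exact_mod_cast h1
    refine h2.trans (hGc.trans (mul_le_mul_of_nonneg_right ?_ hAB))
    have hL0 : 0 < L := by linarith
    refine pow_le_pow_left₀ (by positivity) ?_ k
    refine div_le_div_of_nonneg_right ?_ hL0.le
    refine mul_le_mul_of_nonneg_right ?_ (by positivity)
    linarith
  · intro ℓ₀ ε hℓ₀ hε
    obtain ⟨C, hC, h⟩ := torsion_pairs 1 le_rfl
    obtain ⟨N1, hN1⟩ := log_small 2 C (ε / 4) (by positivity)
    obtain ⟨N2, hN2⟩ := log_small 0 (1200 * C) (ε / 2) (by positivity)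
    obtain ⟨N3, hN3⟩ := log_small 3 C ε hε
    obtain ⟨N4, hN4⟩ := log_small 0 8 (ε / 2) (by positivity)
    have hℓ₀r : (1 : ℝ) ≤ ℓ₀ := by exact_mod_cast hℓ₀
    obtain ⟨N5, hN5⟩ := log_small 0 2 (1 / (2 * (ℓ₀ : ℝ))) (by positivity)
    refine ⟨N1 + N2 + N3 + N4 + N5 + 2, ?_⟩
    intro N A B hN hA hB hcA hcB
    have hNr : (2 : ℝ) ≤ N := by exact_mod_cast (by omega : 2 ≤ N)
    have hN0 : (0 : ℝ) < N := by linarith
    have hlN0 : 0 < Real.log N := Real.log_pos (by linarith)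
    have e1 := hN1 N (by omega)
    have e2 := hN2 N (by omega)
    have e3 := hN3 N (by omega)
    have e4 := hN4 N (by omega)
    have e5 := hN5 N (by omega)
    rw [pow_zero, mul_one] at e2 e4 e5
    set L : ℝ := (N : ℝ) ^ (ε / 2) with hL
    set Y : ℝ := (N : ℝ) ^ (1 / (2 * (ℓ₀ : ℝ)) + ε / 2) with hY
    have hL1 : 1 ≤ L := Real.one_le_rpow (by linarith) (by positivity)
    have hY1 : 1 ≤ Y := Real.one_le_rpow (by linarith) (by positivity)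
    have hY2 : Y ^ (2 * 1) = (N : ℝ) ^ (1 / (ℓ₀ : ℝ) + ε) := by
      rw [hY, ← Real.rpow_natCast, ← Real.rpow_mul hN0.le]
      congr 1
      push_cast
      field_simp
    obtain ⟨G, hGs, hGc, hG⟩ := h N 1 A B L Y (by omega) one_ne_zero (by rw [abs_one]; exact_mod_cast (by omega : 1 ≤ N))
      (sub_Icc hA) (sub_Icc hB) hL1 hY1 (by rw [hY2]; exact hcA) (by rw [hY2]; exact hcB)
    refine ⟨G, ?_, ?_⟩
    · refine hGc.trans (mul_le_mul_of_nonneg_right ?_ (by positivity))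
      rw [pow_one, div_le_iff₀ (by positivity)]
      refine e1.trans (le_of_eq ?_)
      rw [hL, ← Real.rpow_add hN0]
      congr 1
      ring
    · intro a ha b hb hab ℓ hℓ K _ _ α hfin hα hsq
      obtain ⟨h1, h2, h3⟩ := hG (a, b) (Finset.mem_product.2 ⟨ha, hb⟩) ℓ (by omega) K α hfin hα (by rw [one_mul]; exact hsq)
      have hΔ := disc_gt K hfin
      set Δ : ℝ := |(discr K : ℝ)| with hΔdef
      have hΔ0 : 0 < Δ := by linarith
      have hℓr : (ℓ₀ : ℝ) ≤ ℓ := by exact_mod_cast hℓ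
      have hℓ0 : (0 : ℝ) < ℓ := by linarith
      have hsplit : √Δ = Δ ^ (1 / 2 - 1 / (2 * (ℓ : ℝ))) * Δ ^ (1 / (2 * (ℓ : ℝ))) := by
        rw [← Real.rpow_add hΔ0, Real.sqrt_eq_rpow]
        congr 1
        ring
      have hΔθ : 0 < Δ ^ (1 / 2 - 1 / (2 * (ℓ : ℝ))) := by positivity
      have hΔi : 0 < Δ ^ (1 / (2 * (ℓ : ℝ))) := by positivity
      change tor K ℓ ≤ _
      rcases h3 hab with h4 | h4
      · have h5 : Δ ^ (1 / (2 * (ℓ : ℝ))) ≤ 1200 * L := by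
          rcases min_choice (Δ ^ (1 / (2 * (ℓ : ℝ))) / 600) Y with h6 | h6
          · rw [h6] at h4
            linarith
          · rw [h6] at h4
            exfalso
            have h7 : Y = (N : ℝ) ^ (1 / (2 * (ℓ₀ : ℝ))) * L := by rw [hY, hL, ← Real.rpow_add hN0]
            rw [h7] at h4
            have h8 := mul_le_mul_of_nonneg_right e5 (by linarith : 0 ≤ L)
            linarith
        calc tor K ℓ ≤ C * (ℓ : ℝ) ^ 2 * √Δ := h2
          _ = C * (ℓ : ℝ) ^ 2 * (Δ ^ (1 / 2 - 1 / (2 * (ℓ : ℝ))) * Δ ^ (1 / (2 * (ℓ : ℝ)))) := by rw [hsplit]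
          _ ≤ C * (ℓ : ℝ) ^ 2 * (Δ ^ (1 / 2 - 1 / (2 * (ℓ : ℝ))) * (1200 * L)) := by gcongr
          _ = (1200 * C) * L * ((ℓ : ℝ) ^ 2 * Δ ^ (1 / 2 - 1 / (2 * (ℓ : ℝ)))) := by ring
          _ ≤ (N : ℝ) ^ (ε / 2) * L * ((ℓ : ℝ) ^ 2 * Δ ^ (1 / 2 - 1 / (2 * (ℓ : ℝ)))) := by gcongr
          _ = (ℓ : ℝ) ^ 2 * ((N : ℝ) ^ (ε / 2) * L) * Δ ^ (1 / 2 - 1 / (2 * (ℓ : ℝ))) := by ring
          _ = _ := by
              rw [hL, ← Real.rpow_add hN0]
              congr 3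
              ring
      · have h5 : Δ ^ (1 / (2 * (ℓ : ℝ))) ≤ Y := by
          have h6 : Δ ≤ 8 * N := by
            refine h1.trans ?_
            have h7 : |a + b| ≤ 2 * (N : ℤ) := by
              have := hA a ha
              have := hB b hb
              have := abs_add_le a b
              linarith
            have h8 : |((1 * ((a, b).1 + (a, b).2) : ℤ) : ℝ)| ≤ 2 * N := by
              rw [one_mul]
              exact_mod_cast h7
            linarith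
          have h9 : 1 / (2 * (ℓ : ℝ)) ≤ 1 / (2 * (ℓ₀ : ℝ)) := by
            apply one_div_le_one_div_of_le (by positivity)
            linarith
          have h10 : (1 : ℝ) ≤ 8 * N := by linarith
          calc Δ ^ (1 / (2 * (ℓ : ℝ))) ≤ (8 * (N : ℝ)) ^ (1 / (2 * (ℓ : ℝ))) :=
                Real.rpow_le_rpow hΔ0.le h6 (by positivity)
            _ ≤ (8 * (N : ℝ)) ^ (1 / (2 * (ℓ₀ : ℝ))) := Real.rpow_le_rpow_of_exponent_le h10 h9
            _ = (8 : ℝ) ^ (1 / (2 * (ℓ₀ : ℝ))) * (N : ℝ) ^ (1 / (2 * (ℓ₀ : ℝ))) := Real.mul_rpow (by norm_num) hN0.le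
            _ ≤ 8 * (N : ℝ) ^ (1 / (2 * (ℓ₀ : ℝ))) := by
                refine mul_le_mul_of_nonneg_right ?_ (by positivity)
                have h11 : 1 / (2 * (ℓ₀ : ℝ)) ≤ 1 := by
                  rw [div_le_one (by positivity)]
                  linarith
                calc (8 : ℝ) ^ (1 / (2 * (ℓ₀ : ℝ))) ≤ (8 : ℝ) ^ (1 : ℝ) :=
                      Real.rpow_le_rpow_of_exponent_le (by norm_num) h11
                  _ = 8 := Real.rpow_one _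
            _ ≤ (N : ℝ) ^ (ε / 2) * (N : ℝ) ^ (1 / (2 * (ℓ₀ : ℝ))) := mul_le_mul_of_nonneg_right e4 (by positivity)
            _ = Y := by rw [hY, ← Real.rpow_add hN0, add_comm]
        have h6 : max (Δ ^ (-(1 / (2 * (ℓ : ℝ))))) (1 / Y) = (Δ ^ (1 / (2 * (ℓ : ℝ))))⁻¹ := by
          rw [Real.rpow_neg hΔ0.le, max_eq_left]
          rw [one_div]
          exact inv_anti₀ hΔi h5
        rw [h6] at h4
        calc tor K ℓ ≤ C * (ℓ : ℝ) ^ 2 * Real.log N ^ 3 * √Δ * (Δ ^ (1 / (2 * (ℓ : ℝ))))⁻¹ := h4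
          _ = C * Real.log N ^ 3 * ((ℓ : ℝ) ^ 2 * Δ ^ (1 / 2 - 1 / (2 * (ℓ : ℝ)))) := by
              rw [hsplit]
              field_simp
          _ ≤ (N : ℝ) ^ ε * ((ℓ : ℝ) ^ 2 * Δ ^ (1 / 2 - 1 / (2 * (ℓ : ℝ)))) := by gcongr
          _ = _ := by ring

end Pool.Agent.Results.MP_695920_nt.Sumsets
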