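import Pool.Agent.H491R4.AF2
import Pool.Agent.R459.Tor6

/-! # Torsion in the class groups of the fields generated by the roots of `F(x) = j v`, for almost all `v` in automatic sets

Let `n ≥ 2`, and let `S` be an automatic set (the set of the integers whose digits in a base `b` are accepted by a finite
automaton) of more than polylogarithmic size; such sets may have as few as `N ^ c` elements below `N`, with arbitrarily small
`c > 0`. For almost all `v = c + κ u` with `u ∈ S`, `u < N`, the following holds for ALL monic integer polynomials `F` of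
degree `n` and all `j ≠ 0` whose coefficients are at most a power of `log N`, and for all `ℓ` up to a power of `log N`: every
number field `K` of degree `n` generated by a root of `F(x) = j v` has at most
`(log N) ^ D √|disc K| max (|disc K| ^ (- 1 / (n (n - 1) ℓ)), N ^ (- δ))` ideal classes killed by `ℓ`.

Definitions used: in `Pool.Agent.H491R4.AF` (file `Pool/Agent/H491R4/AF2.lean`): `acc b M N E`: the number of the
integers `v < N` accepted by the automaton `M` (reading the digits of `v` in base `b`, the least significant digit first)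
with the property `E`; `AlmostS b M N κ c τ P`: the proportion of the `v < N` accepted by `M` for which `c + κ v` does not
have the property `P` is at most `τ`. -/

set_option autoImplicit false

namespace Pool.Agent.Results.MP_695920_nt.AutomaticFamilies

open Polynomial NumberField Filter
open Pool.Agent.R459.Tor
open Pool.Agent.H491R4.AF

/-- the scales -/
lemma scales (B : ℕ) (hB : 2 ≤ B) : ∃ N₁ : ℕ, 3 ≤ N₁ ∧ ∀ N : ℕ, N₁ ≤ N → 1 ≤ Real.log N ∧
    Real.log N ≤ ((Nat.log B N + 1 : ℕ) : ℝ) ^ 2 ∧ ((Nat.log B N + 1 : ℕ) : ℝ) ≤ Real.log N ^ 2 := by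
  obtain ⟨R, hR⟩ := exists_nat_ge (Real.exp 3)
  refine ⟨B ^ B + R + 3, by omega, fun N hN => ?_⟩
  have hNr : (0 : ℝ) < N := by exact_mod_cast (by omega : 0 < N)
  have hB2 : (2 : ℝ) ≤ B := by exact_mod_cast hB
  have h3 : 3 ≤ Real.log N := by
    rw [Real.le_log_iff_exp_le hNr]
    exact hR.trans (by exact_mod_cast (by omega : R ≤ N))
  obtain ⟨n, hn⟩ : ∃ n, n = Nat.log B N := ⟨_, rfl⟩
  rw [← hn]
  have hn1 : B ≤ n := by
    rw [hn]
    exact (Nat.le_log_iff_pow_le (by omega) (by omega)).2 (by omega)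
  have hN1 : B ^ n ≤ N := by rw [hn]; exact Nat.pow_log_le_self B (by omega)
  have hN2 : N < B ^ (n + 1) := by rw [hn]; exact Nat.lt_pow_succ_log_self (by omega) N
  refine ⟨by linarith, ?_, ?_⟩
  · have e1 : (N : ℝ) ≤ (B : ℝ) ^ (n + 1) := by exact_mod_cast hN2.le
    have e2 := Real.log_le_log hNr e1
    rw [Real.log_pow] at e2
    have e3 : Real.log B ≤ B := (Real.log_le_sub_one_of_pos (by linarith)).trans (by linarith)
    have e4 : (B : ℝ) ≤ ((n + 1 : ℕ) : ℝ) := by exact_mod_cast (by omega : B ≤ n + 1)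
    calc Real.log N ≤ ((n + 1 : ℕ) : ℝ) * Real.log B := e2
      _ ≤ ((n + 1 : ℕ) : ℝ) * ((n + 1 : ℕ) : ℝ) := mul_le_mul_of_nonneg_left (e3.trans e4) (Nat.cast_nonneg _)
      _ = _ := by ring
  · have e2 : ((B : ℝ)) ^ n ≤ N := by exact_mod_cast hN1
    have e3 := Real.log_le_log (by positivity) e2
    rw [Real.log_pow] at e3
    have e4 : Real.log 2 ≤ Real.log B := Real.log_le_log (by norm_num) hB2
    have e5 := Real.log_two_gt_d9
    have e6 : ((n : ℕ) : ℝ) * (1 / 2) ≤ (n : ℕ) * Real.log B :=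
      mul_le_mul_of_nonneg_left (by linarith) (Nat.cast_nonneg _)
    push_cast
    nlinarith

/-- **Theorem.** Let `S` be the set of the integers `u ≥ 0` whose digits in base `b ≥ 2` are accepted by a finite automaton
`M`, and suppose that `S` has more than polylogarithmic size: for every `k` there are infinitely many `N` such that more than
`(log N) ^ k` elements of `S` are smaller than `N`. There is `δ > 0` such that for all `κ ≠ 0`, `n ≥ 2` and `T`, `U`, `V` there
are `D` and `N₀` such that for all `N ≥ N₀` and ALL integers `c` almost all the `v = c + κ u` with `u ∈ S`, `u < N`, with a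
proportion of at most `1 / (log N) ^ U` of exceptions, have the following property, if `|v| ≤ N ^ V`. For ALL monic
`F ∈ ℤ[X]` of degree `n` with coefficients of absolute value at most `(log N) ^ T`, ALL `j ≠ 0` with `|j| ≤ (log N) ^ T`, ALL
`ℓ` with `1 ≤ ℓ ≤ (log N) ^ T` and ALL number fields `K` of degree `n` which are generated by an element `α` with
`F(α) = j v`, the number of the ideal classes of `K` killed by `ℓ` is at most
`(log N) ^ D √|disc K| max (|disc K| ^ (- 1 / (n (n - 1) ℓ)), N ^ (- δ))`. -/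
theorem result {σ : Type} [Fintype σ] (b : ℕ) (hb : 2 ≤ b) (M : DFA ℕ σ)
    (hS : ∀ k : ℕ, ∃ᶠ N : ℕ in atTop, Real.log N ^ k < (acc b M N (fun _ => True) : ℝ)) :
    ∃ δ : ℝ, 0 < δ ∧ ∀ κ : ℤ, κ ≠ 0 → ∀ n : ℕ, 2 ≤ n →
    ∀ T U V : ℕ, ∃ D N₀ : ℕ, ∀ N : ℕ, N₀ ≤ N → ∀ c : ℤ,
    AlmostS b M N κ c (1 / Real.log N ^ U) (fun v => |v| ≤ (N : ℤ) ^ V →
      ∀ F : ℤ[X], F.Monic → F.natDegree = n → (∀ i, (|F.coeff i| : ℝ) ≤ Real.log N ^ T) →
      ∀ j : ℤ, j ≠ 0 → (|j| : ℝ) ≤ Real.log N ^ T → ∀ ℓ : ℕ, 1 ≤ ℓ → (ℓ : ℝ) ≤ Real.log N ^ T →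
      ∀ (K : Type) [Field K] [NumberField K] (α : K), Module.finrank ℚ K = n →
        IntermediateField.adjoin ℚ {α} = ⊤ → aeval α F = ((j * v : ℤ) : K) →
        (Nat.card {x : ClassGroup (𝓞 K) // x ^ ℓ = 1} : ℝ) ≤
          Real.log N ^ D * √|(discr K : ℝ)| *
            max (|(discr K : ℝ)| ^ (-(1 / ((n * (n - 1) * ℓ : ℕ) : ℝ)))) ((N : ℝ) ^ (-δ))) := by
  classical
  obtain ⟨B, A₀, e, N₁, hB, H⟩ := aut_almost b hb M hS
  obtain ⟨W, hW, K₁⟩ := all_scale B hB A₀ (1 / 2) (by norm_num) (by norm_num)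
  obtain ⟨N₂, _, hN₂⟩ := scales B hB
  have hW0 : (0 : ℝ) < W := by exact_mod_cast hW
  refine ⟨1 / W, by positivity, fun κ hκ n hn T U V => ?_⟩
  obtain ⟨A, k₁, hA4, hk₁, J₁⟩ := K₁ B.factorial κ (Nat.factorial_pos _) hκ n (by omega) (2 * T) (2 * (e + U))
  obtain ⟨D, k₃, hk₃, J₃⟩ := class_bound B hB n hn (2 * T) A W V hA4 hW
  refine ⟨2 * D, N₁ + N₂ + B ^ (k₁ + k₃) + 1, fun N hN c => ?_⟩
  obtain ⟨hl1, hl2, hl3⟩ := hN₂ N (by omega)
  obtain ⟨k, hk⟩ : ∃ k, k = Nat.log B N + 1 := ⟨_, rfl⟩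
  have hkk : k₁ + k₃ ≤ k := by
    have : k₁ + k₃ ≤ Nat.log B N := (Nat.le_log_iff_pow_le (by omega) (by omega)).2 (by omega)
    omega
  have hN2 : N < B ^ k := by rw [hk]; exact Nat.lt_pow_succ_log_self (by omega) N
  rw [← hk] at hl2 hl3
  have hl0 : 0 < Real.log N := by linarith
  have hk0 : (0 : ℝ) < k := by exact_mod_cast (by omega : 0 < k)
  have hNr : (0 : ℝ) < N := by exact_mod_cast (by omega : 0 < N)
  have hB0 : (0 : ℝ) < B := by exact_mod_cast (by omega : 0 < B)
  have hlT : ∀ s : ℕ, Real.log N ^ s ≤ (k : ℝ) ^ (2 * s) := by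
    intro s
    rw [pow_mul]
    exact pow_le_pow_left₀ hl0.le hl2 s
  refine AlmostS.le (H N (by omega) κ c (1 / (k : ℝ) ^ (2 * (e + U))) _ ?_) ?_
  · intro ι Ω w v hdec E hE hbad
    rw [← hk] at hdec
    refine J₁ k (by omega) ι Ω w v hdec E hE fun i hi hm => ?_
    refine hbad i hi fun hv F hF1 hF2 hF3 j hj0 hj ℓ hℓ1 hℓ2 K _ _ α hfin hα h => ?_
    have hint : ∀ z : ℤ, (|z| : ℝ) ≤ Real.log N ^ T → |z| ≤ (k : ℤ) ^ (2 * T) := by
      intro z hz
      have h5 := hz.trans (hlT T)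
      exact_mod_cast h5
    have hv' : |v i| ≤ (B : ℤ) ^ (V * k) := by
      refine hv.trans ?_
      have h6 : N ^ V ≤ B ^ (V * k) := by
        rw [mul_comm, pow_mul]
        exact Nat.pow_le_pow_left hN2.le V
      exact_mod_cast h6
    have hℓ' : ℓ ≤ k ^ (2 * T) := by exact_mod_cast hℓ2.trans (hlT T)
    have h5 := J₃ k (by omega) (v i) hm hv' F ⟨hF1, hF2, fun i => hint _ (hF3 i)⟩ j hj0 (hint j hj) ℓ hℓ1 hℓ' K α hfin hα h
    refine h5.trans ?_
    apply mul_le_mul
    · apply mul_le_mul_of_nonneg_right _ (Real.sqrt_nonneg _)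
      rw [pow_mul]
      exact pow_le_pow_left₀ hk0.le hl3 D
    · apply max_le_max le_rfl
      have e1 : (B : ℝ) ^ (-((k : ℝ) / W)) = ((B : ℝ) ^ k) ^ (-(1 / (W : ℝ))) := by
        rw [← Real.rpow_natCast, ← Real.rpow_mul hB0.le]
        congr 1
        ring
      rw [e1]
      apply Real.rpow_le_rpow_of_nonpos hNr
      · exact_mod_cast hN2.le
      · have : 0 < 1 / (W : ℝ) := by positivity
        linarith
    · positivity
    · positivity
  · have h7 := hlT (e + U)
    rw [mul_one_div, div_le_div_iff₀ (by positivity) (by positivity), one_mul, ← pow_add]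
    exact h7

end Pool.Agent.Results.MP_695920_nt.AutomaticFamilies
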