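import Pool.Agent.R459.Tor6

/-! # Torsion in the class groups of the fields generated by the roots of `F(x) = j v`, for almost all `v` in digit families

Let `n ≥ 2`. For almost all the members `v` of families of integers given by digits (rearrangements of arbitrary digits,
palindromes, integers with independent pairs of mirror digits: only `N ^ c` of the integers up to `N`) the following
holds for ALL monic integer polynomials `F` of degree `n` and all `j ≠ 0` whose coefficients are at most a power of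
`log N`, and for all `ℓ` up to a power of `log N`: every number field `K` of degree `n` generated by a root of
`F(x) = j v` has at most `(log N) ^ B √D max (D ^ (- 1 / (n (n - 1) ℓ)), N ^ (- δ))` ideal classes killed by `ℓ`, where
`D = |disc K|`. For `n = 2` this is the bound `D ^ (1 / 2 - 1 / (2 ℓ))` for the fields `ℚ(√(j v + m))`, real or imaginary,
as long as it is larger than `D ^ (1 / 2) N ^ (- δ)`.

Method. A large sieve inequality for the family: the sum over the primes `p ≤ x` of an ARBITRARY function with period `p`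
is its mean up to a square root, in the mean square over the family, for all `x` up to a power of `N`
(`R459/Eq1` - `Eq6`). At least one `n`-th of the classes `v` modulo `p` are such that `F(x) = j v` has a simple root modulo
`p`, and then `p` is the norm of an ideal of `K` (Hensel). The classes of these ideals are different modulo the
`ℓ`-torsion: starting result `MP_695920_nt.LogSavingAllDegrees`. -/

set_option autoImplicit false

namespace Pool.Agent.Results.MP_695920_nt.DigitFamilies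

open Polynomial NumberField
open Pool.Agent.R459.Eq (Almost almost_of)
open Pool.Agent.R459.Tor

/-- **Theorem.** Let `b ≥ 2` and `η > 0`. There is `δ > 0` such that for all `κ ≠ 0`, `n ≥ 2` and `T`, `U`, `V` there are
`B` and `k₀` such that for all `k ≥ k₀` and ALL integers `c` almost all the members `v` (of the form `c + κ u`) of the
families of integers given by `k` digits in base `b`, with a proportion of at most `1 / k ^ U` of exceptions, have the
following property, if `|v| ≤ b ^ (V k)`. For ALL monic `F ∈ ℤ[X]` of degree `n` with coefficients of absolute value at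
most `k ^ T`, ALL `j ≠ 0` with `|j| ≤ k ^ T`, ALL `ℓ` with `1 ≤ ℓ ≤ k ^ T` and ALL number fields `K` of degree `n` which are
generated by an element `α` with `F(α) = j v`, the number of the ideal classes of `K` killed by `ℓ` is at most
`k ^ B √|disc K| max (|disc K| ^ (- 1 / (n (n - 1) ℓ)), b ^ (- δ k))`. -/
theorem result (b : ℕ) (hb : 2 ≤ b) (η : ℝ) (hη : 0 < η) : ∃ δ : ℝ, 0 < δ ∧ ∀ κ : ℤ, κ ≠ 0 → ∀ n : ℕ, 2 ≤ n →
    ∀ T U V : ℕ, ∃ B k₀ : ℕ, ∀ k : ℕ, k₀ ≤ k → ∀ c : ℤ,
    Almost b k κ c η (1 / (k : ℝ) ^ U) (fun v => |v| ≤ (b : ℤ) ^ (V * k) →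
      ∀ F : ℤ[X], F.Monic → F.natDegree = n → (∀ i, |F.coeff i| ≤ (k : ℤ) ^ T) →
      ∀ j : ℤ, j ≠ 0 → |j| ≤ (k : ℤ) ^ T → ∀ ℓ : ℕ, 1 ≤ ℓ → ℓ ≤ k ^ T →
      ∀ (K : Type) [Field K] [NumberField K] (α : K), Module.finrank ℚ K = n →
        IntermediateField.adjoin ℚ {α} = ⊤ → aeval α F = ((j * v : ℤ) : K) →
        (Nat.card {x : ClassGroup (𝓞 K) // x ^ ℓ = 1} : ℝ) ≤
          (k : ℝ) ^ B * √|(discr K : ℝ)| *
            max (|(discr K : ℝ)| ^ (-(1 / ((n * (n - 1) * ℓ : ℕ) : ℝ)))) ((b : ℝ) ^ (-(δ * k)))) := by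
  classical
  obtain ⟨A₁, A₂, γ₁, γ₂, h1, h2, h3, h4, H⟩ := almost_of b hb η hη
  obtain ⟨W₁, hW₁, K₁⟩ := all_scale b hb A₁ γ₁ h1 h2
  obtain ⟨W₂, hW₂, K₂⟩ := all_scale b hb A₂ γ₂ h3 h4
  obtain ⟨W, hW⟩ : ∃ W, W = max W₁ W₂ := ⟨_, rfl⟩
  have hWW₁ : W₁ ≤ W := by rw [hW]; exact le_max_left _ _
  have hWW₂ : W₂ ≤ W := by rw [hW]; exact le_max_right _ _
  have hW1 : 1 ≤ W := hW₁.trans hWW₁
  have hW0 : (0 : ℝ) < W := by exact_mod_cast hW1
  refine ⟨1 / W, by positivity, fun κ hκ n hn T U V => ?_⟩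
  obtain ⟨B₁, k₁, hB₁, hk₁, J₁⟩ := K₁ (Pool.Agent.TH872.An.GG b) κ (Pool.Agent.TH872.An.GG_pos b hb) hκ n (by omega) T U
  obtain ⟨B₂, k₂, hB₂, hk₂, J₂⟩ := K₂ (b ^ 4).factorial κ (Nat.factorial_pos _) hκ n (by omega) T U
  obtain ⟨A, hA⟩ : ∃ A, A = max B₁ B₂ := ⟨_, rfl⟩
  have hAA₁ : B₁ ≤ A := by rw [hA]; exact le_max_left _ _
  have hAA₂ : B₂ ≤ A := by rw [hA]; exact le_max_right _ _
  obtain ⟨B, k₃, hk₃, J₃⟩ := class_bound b hb n hn T A W V (hB₁.trans hAA₁) hW1
  refine ⟨B, k₁ + k₂ + k₃ + 2, fun k hk c => ?_⟩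
  have hmono : ∀ (A' W' : ℕ) (v : ℤ), A' ≤ A → W' ≤ W → Many b n T A' W' k v → Many b n T A W k v := by
    intro A' W' v hA' hW' hm F hF j hj0 hj r hr1 hr2
    exact hm F hF j hj0 hj r ((Nat.pow_le_pow_right (by omega) hA').trans hr1)
      ((Nat.pow_le_pow_right (by positivity) hW').trans hr2)
  refine H k (by omega) κ c _ _ (by positivity) fun F₀ A' γ hFA ι Ω w v hdec E hE hbad => ?_
  have hbad' : ∀ i ∈ E, ¬ Many b n T A W k (v i) := by
    intro i hi hm
    refine hbad i hi fun hv F hF1 hF2 hF3 j hj0 hj ℓ hℓ1 hℓ2 K _ _ α hfin hα h => ?_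
    have h5 := J₃ k (by omega) (v i) hm hv F ⟨hF1, hF2, hF3⟩ j hj0 hj ℓ hℓ1 hℓ2 K α hfin hα h
    have e : -(1 / (W : ℝ) * k) = -((k : ℝ) / W) := by ring
    rw [e]
    exact h5
  rcases hFA with h | h
  · simp only [Prod.mk.injEq] at h
    obtain ⟨rfl, rfl, rfl⟩ := h
    exact J₁ k (by omega) ι Ω w v hdec E hE fun i hi hm => hbad' i hi (hmono _ _ _ hAA₁ hWW₁ hm)
  · simp only [Prod.mk.injEq] at h
    obtain ⟨rfl, rfl, rfl⟩ := h
    exact J₂ k (by omega) ι Ω w v hdec E hE fun i hi hm => hbad' i hi (hmono _ _ _ hAA₂ hWW₂ hm)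

end Pool.Agent.Results.MP_695920_nt.DigitFamilies
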