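import Pool.Agent.R418.UP.F

set_option autoImplicit false

/-!
# Torsion in the class groups of the fields `ℚ(√f(j))`, uniformly in the polynomial

Let `f` be ANY polynomial with integer coefficients, of degree between `1` and `D`, without multiple
roots, whose coefficients have absolute values at most `T₀ ^ B`.  Let the number `N` of values be at
least a power of the logarithm: `(log T₀) ^ C ≤ N ≤ T₀`.  Then all but `K N ^ (2 / 3 + δ)` of the
values `f(j)`, `j < N`, which are not squares are such that the (real or imaginary) quadratic field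
`K` of the square root of `f(j)` satisfies, for all `l ≥ 1`,

  `|Cl_K[l]| ≤ |disc K| ^ (1 / 2 - 1 / (2 l)) T₀ ^ ε`.

The constants `C`, `K` depend only on `ε`, `δ`, `B`, `D`, and not on `f`, `T₀`, `N`.
-/

namespace Pool.Agent.Results.MP_695920_nt.UniformPolynomials

open Polynomial NumberField

/-- the polynomials of degree between `1` and `D` without multiple roots (separable over `ℚ`) whose
coefficients have absolute values at most `M` -/
def Fam (D : ℕ) (M : ℝ) : Set ℤ[X] := {f | 1 ≤ f.natDegree ∧ f.natDegree ≤ D ∧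
  (f.map (Int.castRingHom ℚ)).Separable ∧ ∀ i, |((f.coeff i : ℤ) : ℝ)| ≤ M}

/-- `a` is not a square, and for some `l ≥ 1` the quadratic field of the square root of `a` has more
than `|disc| ^ (1 / 2 - 1 / (2 l)) T ^ ε` ideal classes killed by `l` -/
def Bad (ε T : ℝ) (a : ℤ) : Prop := ¬ IsSquare a ∧ ∃ (K : Type) (_ : Field K) (_ : NumberField K)
  (l : ℕ), Module.finrank ℚ K = 2 ∧ (∃ x : K, x ^ 2 = (a : K)) ∧ 1 ≤ l ∧
    |(discr K : ℝ)| ^ (1 / 2 - 1 / (2 * l) : ℝ) * T ^ ε <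
      (Nat.card {c : ClassGroup (𝓞 K) // c ^ l = 1} : ℝ)

theorem result (ε δ : ℝ) (B D : ℕ) (hε : 0 < ε) (hδ : 0 < δ) (hD : 1 ≤ D) :
    ∃ C K : ℝ, 0 < C ∧ 0 < K ∧ ∀ T₀ N : ℕ, ∀ f ∈ Fam D ((T₀ : ℝ) ^ B),
      Real.log T₀ ^ C ≤ N → N ≤ T₀ →
        (({j : ℕ | j < N ∧ Bad ε T₀ (f.eval (j : ℤ))}).ncard : ℝ) ≤
          K * (N : ℝ) ^ (2 / 3 + δ) := by
  classical
  obtain ⟨C, K, hC, hK, h⟩ := Pool.Agent.R418.UP.mainT ε δ B D hε hδ hD
  refine ⟨C, K, hC, hK, fun T₀ N f hf h1 h3 => ?_⟩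
  obtain ⟨hf1, hf2, hf3, hf4⟩ := hf
  have hfin : ({j : ℕ | j < N ∧ Bad ε T₀ (f.eval (j : ℤ))} : Set ℕ).Finite :=
    (Set.finite_Iio N).subset fun j hj => hj.1
  rw [Set.ncard_eq_toFinset_card _ hfin]
  refine h T₀ N f hf1 hf2 hf3 hf4 h1 h3 _ fun j hj => ?_
  exact (Set.Finite.mem_toFinset hfin).1 hj

end Pool.Agent.Results.MP_695920_nt.UniformPolynomials
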